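import Mathlib
import Pool.Agent.Q310.ZS.Main

set_option autoImplicit false

/-! Zero-sum Ramsey numbers over the Klein four-group, and over every finite abelian group, exceed the
number of vertices by at most a constant. -/

namespace Pool.Agent.Results.MP_c15e47_co.KleinZeroSumRamsey

open Finset

/-- every colouring of the edges of `K_N` by `Γ` contains a zero-sum copy of `G`: for every
`f` there is an injection `φ` of the vertices for which the colours of the images of the edges of `G`
add up to `0`. (A colouring is given as a function on all unordered pairs of vertices of `K_N`;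
the values on the degenerate pairs `s(x, x)` are never used, `φ` being injective.) -/
def Forces {n : ℕ} (G : SimpleGraph (Fin n)) [DecidableRel G.Adj] (Γ : Type) [AddCommGroup Γ]
    (N : ℕ) : Prop :=
  ∀ f : Sym2 (Fin N) → Γ, ∃ φ : Fin n ↪ Fin N, ∑ e ∈ G.edgeFinset, f (Sym2.map φ e) = 0

/-- the zero-sum Ramsey number `R(G, Γ)` -/
noncomputable def zsRamsey {n : ℕ} (G : SimpleGraph (Fin n)) [DecidableRel G.Adj] (Γ : Type)
    [AddCommGroup Γ] : ℕ := sInf {N | Forces G Γ N}

theorem main_aux (Γ : Type) [AddCommGroup Γ] [Finite Γ] : ∃ C : ℕ, ∀ (n : ℕ)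
    (G : SimpleGraph (Fin n)) [DecidableRel G.Adj], AddMonoid.exponent Γ ∣ G.edgeFinset.card →
    ∀ N, n + C ≤ N → Forces G Γ N := by
  classical
  haveI := Fintype.ofFinite Γ
  obtain ⟨C, hC⟩ := Pool.Agent.Q310.ZS.mainA Γ (AddMonoid.exponent Γ)
    (Nat.pos_of_ne_zero AddMonoid.exponent_ne_zero_of_finite)
    (fun a => AddMonoid.exponent_nsmul_eq_zero a)
  refine ⟨C, fun n G _ hG N hN f => ?_⟩
  obtain ⟨ρ, hρ, hS⟩ := hC (Fin n) (Fin N) G hG (by simpa using hN) f
  exact ⟨⟨ρ, hρ⟩, hS⟩

/-- **Klein group (Q1).** There is a constant `C` with `R(G, Z_2 × Z_2) ≤ n + C` for every graph `G`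
with `n` vertices and an even number of edges.

More generally, for every finite abelian group `Γ` there is a constant `C` such that for every graph
`G` on `n` vertices whose number of edges is a multiple of the exponent of `Γ`, every `Γ`-colouring of
every `K_N` with `N ≥ n + C` contains a zero-sum copy of `G`, so `R(G, Γ) ≤ n + C`; and for the other
graphs no `K_N` has this property. -/
theorem result :
    (∃ C : ℕ, ∀ (n : ℕ) (G : SimpleGraph (Fin n)) [DecidableRel G.Adj], Even G.edgeFinset.card →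
      (∀ N, n + C ≤ N → Forces G (ZMod 2 × ZMod 2) N) ∧
        zsRamsey G (ZMod 2 × ZMod 2) ≤ n + C) ∧
    (∀ (Γ : Type) [AddCommGroup Γ] [Finite Γ], ∃ C : ℕ, ∀ (n : ℕ) (G : SimpleGraph (Fin n))
      [DecidableRel G.Adj],
      (AddMonoid.exponent Γ ∣ G.edgeFinset.card →
        (∀ N, n + C ≤ N → Forces G Γ N) ∧ zsRamsey G Γ ≤ n + C) ∧
      (¬ AddMonoid.exponent Γ ∣ G.edgeFinset.card → ∀ N, ¬ Forces G Γ N)) := by
  refine ⟨?_, ?_⟩
  · obtain ⟨C, hC⟩ := main_aux (ZMod 2 × ZMod 2)
    have hexp : AddMonoid.exponent (ZMod 2 × ZMod 2) ∣ 2 :=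
      AddMonoid.exponent_dvd_of_forall_nsmul_eq_zero (by decide)
    refine ⟨C, fun n G _ hG => ?_⟩
    have h := hC n G (hexp.trans hG.two_dvd)
    exact ⟨h, Nat.sInf_le (h _ le_rfl)⟩
  · intro Γ _ _
    obtain ⟨C, hC⟩ := main_aux Γ
    refine ⟨C, fun n G _ => ⟨fun hG => ⟨hC n G hG, Nat.sInf_le (hC n G hG _ le_rfl)⟩, ?_⟩⟩
    intro hG N hF
    apply hG
    apply AddMonoid.exponent_dvd_of_forall_nsmul_eq_zero
    intro a
    obtain ⟨φ, hφ⟩ := hF (fun _ => a)
    rwa [sum_const] at hφ

end Pool.Agent.Results.MP_c15e47_co.KleinZeroSumRamsey
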